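import Pool.Agent.Lib.MP_6d9b00_al.Hu.Pass
import Pool.Agent.Lib.MP_6d9b00_al.Hu.Symb

namespace Pool.Agent.Results.MP_6d9b00_al.HughesAllPrimes

open Pool.Agent.Lib.MP_6d9b00_al.Hu

/-- For every prime p at least 5 there is a finite p-group P with a normal subgroup T with quotient
elementary abelian of order p ^ 2, all elements outside T of order p and T not of exponent p; the
subgroup generated by the elements of order different from p is neither trivial, nor the whole
group, nor of index p. -/
theorem result (p : ℕ) (hp : p.Prime) (h5 : 5 ≤ p) :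
    ∃ (P : Type) (_ : Group P) (_ : Finite P), IsPGroup p P ∧
      (∃ (T : Subgroup P) (_ : T.Normal),
        Nonempty (P ⧸ T ≃* Multiplicative (ZMod p × ZMod p)) ∧
        (∀ g : P, g ∉ T → orderOf g = p) ∧ ∃ t ∈ T, t ^ p ≠ 1) ∧
      Subgroup.closure {g : P | orderOf g ≠ p} ≠ ⊥ ∧
      Subgroup.closure {g : P | orderOf g ≠ p} ≠ ⊤ ∧
      (Subgroup.closure {g : P | orderOf g ≠ p}).index ≠ p := by
  obtain ⟨P, iP, fP, hP, T, hT, ⟨e⟩, hord, t, ht, htp⟩ := anti_all sym_four sym_six p hp h5
  have hle : Subgroup.closure {g : P | orderOf g ≠ p} ≤ T :=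
    (Subgroup.closure_le T).2 fun g hg => by_contra fun h => hg (hord g h)
  have : NeZero p := ⟨hp.ne_zero⟩
  have hind : T.index = p * p := by
    rw [Subgroup.index, Nat.card_congr e.toEquiv, Nat.card_congr Multiplicative.toAdd,
      Nat.card_prod, Nat.card_zmod]
  have hdvd : p * p ∣ (Subgroup.closure {g : P | orderOf g ≠ p}).index :=
    hind ▸ Subgroup.index_dvd_of_le hle
  refine ⟨P, iP, fP, hP, ⟨T, hT, ⟨e⟩, hord, t, ht, htp⟩, fun h => ?_, fun h => ?_, fun h => ?_⟩
  · have h1 : t ∈ Subgroup.closure {g : P | orderOf g ≠ p} :=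
      Subgroup.subset_closure fun h' => htp (h' ▸ pow_orderOf_eq_one t)
    rw [h, Subgroup.mem_bot] at h1
    exact htp (by rw [h1, one_pow])
  · rw [h, Subgroup.index_top] at hdvd
    have := Nat.le_of_dvd one_pos hdvd
    nlinarith
  · rw [h] at hdvd
    have := Nat.le_of_dvd hp.pos hdvd
    nlinarith

end Pool.Agent.Results.MP_6d9b00_al.HughesAllPrimes
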