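import Mathlib
import Pool.Agent.Lib.MP_6d9b00_al.MetaGroup

set_option autoImplicit false

namespace Pool.Agent.Results.MP_6d9b00_al.Metabelian

open Pool.Agent.Lib.MP_6d9b00_al

/-- If `T` is metabelian (its commutator subgroup is abelian), `A` is a group of automorphisms of
`T` of order `p ^ 2` and exponent `p`, and every element of `T ⋊ A` outside `T` has order `p`,
then `T` has exponent dividing `p`. -/
theorem result :
    ∀ (p : ℕ), p.Prime →
    ∀ (T : Type) [Group T],
      (∀ x ∈ commutator T, ∀ y ∈ commutator T, x * y = y * x) →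
    ∀ (A : Subgroup (MulAut T)),
      Nat.card A = p ^ 2 →
      (∀ a : A, a ^ p = 1) →
      (∀ (t : T) (a : A), a ≠ 1 →
        orderOf (⟨t, a⟩ : SemidirectProduct T A A.subtype) = p) →
      ∀ t : T, t ^ p = 1 := by
  intro p hp T _ hT A hA hexp hord t
  have : Fact p.Prime := ⟨hp⟩
  obtain ⟨f, hf, hf1⟩ := exists_act hA hexp
  have H : ∀ u, u ≠ 0 → ∀ x, nrm p ((f u : A) : MulAut T) x = 1 := by
    intro u hu x
    have h1 := pow_orderOf_eq_one (⟨x, f u⟩ : SemidirectProduct T A A.subtype)
    rw [hord x (f u) (hf1 u hu)] at h1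
    rw [← (sdp_pow A x (f u) p).1, h1]
    rfl
  have hadd : ∀ u u', ((f (u + u') : A) : MulAut T) = (f u : A) * (f u' : A) := by
    intro u u'; rw [hf]; rfl
  by_cases hp2 : p = 2
  · subst hp2
    exact meta_two (fun u => (f u : A)) hadd H t
  · exact meta_all hp2 hT (fun u => (f u : A)) hadd H t

end Pool.Agent.Results.MP_6d9b00_al.Metabelian
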