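import Mathlib
import Pool.Agent.Lib.MP_6d9b00_al.Setup
import Pool.Agent.Lib.MP_6d9b00_al.Five

namespace Pool.Agent.Results.MP_6d9b00_al.PrimeFive

open Pool.Agent.Lib.MP_6d9b00_al

/-- The problem has a positive answer for the prime five. -/
theorem result :
    ∀ (T : Type) [Group T] [Finite T], IsPGroup 5 T →
    ∀ (A : Subgroup (MulAut T)),
      Nat.card A = 5 ^ 2 →
      (∀ a : A, a ^ 5 = 1) →
      (∀ (t : T) (a : A), a ≠ 1 →
        orderOf (⟨t, a⟩ : SemidirectProduct T A A.subtype) = 5) →
      ∀ t : T, t ^ 5 = 1 := by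
  intro T _ _ hT A hA hAp h t
  have : Fact (Nat.Prime 5) := ⟨by norm_num⟩
  obtain ⟨hfin, hP, a, b, hab, -, h1, h2⟩ := setup hT A hA hAp h
  have hc := (IsPGroup.isMulCommutative_of_card_eq_prime_sq (p := 5) hA).is_comm.comm
  have := five hP _ (hab.map SemidirectProduct.inr) (by rw [← map_pow, hAp, map_one])
    (by rw [← map_pow, hAp, map_one]) (by
      intro x y
      rw [SemidirectProduct.range_inl_eq_ker_rightHom, MonoidHom.mem_ker, map_mul, map_mul, map_mul,
        map_inv, map_inv, hc (SemidirectProduct.rightHom x), mul_inv_cancel_right, mul_inv_cancel])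
    h1 h2 (SemidirectProduct.inl t)
  rw [← map_pow, ← map_one SemidirectProduct.inl] at this
  exact SemidirectProduct.inl_injective this

end Pool.Agent.Results.MP_6d9b00_al.PrimeFive
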