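import Pool.Agent.Lib.MP_6d9b00_al.W34.Weight

set_option autoImplicit false

namespace Pool.Agent.Results.MP_6d9b00_al.WeightBound

/-- Under the hypotheses of the problem, for every weighted series `D` of subgroups of `T` in which
`T` has weight `k` and the generators `a`, `b` of `A` raise the weight by `r` and `s`, all `p`-th
powers have weight `p k + (p - 1)(r + s)`. -/
theorem result :
    ∀ (p : ℕ), p.Prime →
    ∀ (T : Type) [Group T] [Finite T], IsPGroup p T →
    ∀ (A : Subgroup (MulAut T)),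
      Nat.card A = p ^ 2 →
      (∀ a : A, a ^ p = 1) →
      (∀ (t : T) (a : A), a ≠ 1 →
        orderOf (⟨t, a⟩ : SemidirectProduct T A A.subtype) = p) →
      ∀ (a b : A), Subgroup.closure {a, b} = ⊤ →
      ∀ (D : ℕ → Subgroup T) (k r s : ℕ), Antitone D → D k = ⊤ →
        (∀ i j, ⁅D i, D j⁆ ≤ D (i + j)) →
        (∀ i, ∀ g ∈ D i, (a : MulAut T) g * g⁻¹ ∈ D (i + r)) →
        (∀ i, ∀ g ∈ D i, (b : MulAut T) g * g⁻¹ ∈ D (i + s)) →
        ∀ t : T, t ^ p ∈ D (p * k + (p - 1) * (r + s)) :=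
  Pool.Agent.Lib.MP_6d9b00_al.W34.weight_bound

end Pool.Agent.Results.MP_6d9b00_al.WeightBound
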